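import Mathlib

/-!
# The Fourier transform is not continuous from the uniform-local norm to the vague topology

We answer the question of MP_148afe_an in the negative, in every dimension `d ≥ 1` and for every
compact set `K` with non-empty interior.
-/

open MeasureTheory Filter Topology
open scoped ENNReal BigOperators ComplexConjugate

noncomputable section

namespace Pool.Agent.Results.MP_148afe_an.ChirpDiscontinuity

/-- A complex Radon measure on `E`, in polar-type form: the measure `dens · base`, where `base` is a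
positive locally finite Borel measure and `dens` is a locally `base`-integrable complex density.
(On `ℝ^d` every complex Radon measure has this form, with `base` its total variation and
`|dens| = 1`; conversely every such pair defines a complex Radon measure.) -/
structure CMeas (E : Type*) [MeasurableSpace E] [TopologicalSpace E] where
  /-- the positive base measure -/
  base : Measure E
  /-- the base measure is locally finite -/
  locFin : IsLocallyFiniteMeasure base
  /-- the complex density -/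
  dens : E → ℂ
  /-- the density is locally integrable -/
  locInt : LocallyIntegrable dens base

variable {E : Type*} [MeasurableSpace E] [TopologicalSpace E]

/-- The total variation measure `|μ| = |dens| · base`. -/
def CMeas.variation (μ : CMeas E) : Measure E := μ.base.withDensity (fun x => ‖μ.dens x‖ₑ)

/-- The integral `μ(g) = ∫ g dμ = ∫ g · dens d(base)`. -/
def CMeas.eval (μ : CMeas E) (g : E → ℂ) : ℂ := ∫ x, g x * μ.dens x ∂μ.base

/-- Membership in `C_c(E)`: continuous complex functions with compact support. -/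
def IsCc (g : E → ℂ) : Prop := Continuous g ∧ HasCompactSupport g

/-- Vague convergence of a sequence of complex Radon measures to the zero measure. -/
def VagueTendstoZero (ν : ℕ → CMeas E) : Prop :=
  ∀ g : E → ℂ, IsCc g → Tendsto (fun n => (ν n).eval g) atTop (𝓝 0)

variable {d : ℕ}

/-- The norm `‖μ‖_K = sup_x |μ|(x + K)`, with values in `[0, ∞]`. -/
def normK (K : Set (EuclideanSpace ℝ (Fin d))) (μ : CMeas (EuclideanSpace ℝ (Fin d))) : ℝ≥0∞ :=
  ⨆ x : EuclideanSpace ℝ (Fin d), μ.variation ((fun y => x + y) '' K)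

/-- `f̌(y) = ∫ f(x) e^{2π i x·y} dx`. -/
def invFT (f : EuclideanSpace ℝ (Fin d) → ℂ) (y : EuclideanSpace ℝ (Fin d)) : ℂ :=
  ∫ x, f x * Complex.exp (2 * Real.pi * Complex.I * (∑ i, x i * y i : ℝ))

/-- `(f * f̃)(x) = ∫ f(t) f̃(x - t) dt` with `f̃(y) = conj (f (-y))`. -/
def autoConv (f : EuclideanSpace ℝ (Fin d) → ℂ) (x : EuclideanSpace ℝ (Fin d)) : ℂ :=
  ∫ t, f t * conj (f (-(x - t)))

/-- `μ'` is the Fourier transform of `μ`: for every `f ∈ C_c(ℝ^d)` one has `f̌ ∈ L²(|μ'|)` and
`μ(f * f̃) = μ'(|f̌|²)`. -/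
def IsFourierTransform (μ μ' : CMeas (EuclideanSpace ℝ (Fin d))) : Prop :=
  ∀ f : EuclideanSpace ℝ (Fin d) → ℂ, IsCc f →
    MemLp (invFT f) 2 μ'.variation ∧
    μ.eval (autoConv f) = μ'.eval (fun y => ((‖invFT f y‖ ^ 2 : ℝ) : ℂ))

section Proof

open FourierTransform RealInnerProductSpace

variable {d : ℕ}

local instance : Fact ((1 : ℝ≥0∞) ≤ 2) := ⟨by norm_num⟩

lemma invFT_eq (f : EuclideanSpace ℝ (Fin d) → ℂ) : invFT f = 𝓕⁻ f := by
  ext y
  rw [Real.fourierInv_eq']
  unfold invFT
  congr 1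
  ext x
  have : ⟪x, y⟫ = ∑ i, x i * y i := by
    simp [PiLp.inner_apply, mul_comm]
  rw [this, smul_eq_mul, mul_comm]
  congr 2
  push_cast
  ring

lemma mul_formula {f g : EuclideanSpace ℝ (Fin d) → ℂ} (hf : Integrable f) (hg : Integrable g) :
    ∫ ξ, 𝓕⁻ f ξ * g ξ = ∫ x, f x * 𝓕⁻ g x := by
  have h := VectorFourier.integral_fourierIntegral_smul_eq_flip
    (L := -innerₗ (EuclideanSpace ℝ (Fin d))) (e := Real.fourierChar)
    (μ := volume) (ν := volume) (f := f) (g := g)
    Real.continuous_fourierChar (by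
      have : Continuous fun p : EuclideanSpace ℝ (Fin d) × EuclideanSpace ℝ (Fin d) =>
        -⟪p.1, p.2⟫ := by fun_prop
      simpa using this) hf hg
  have hflip : (-innerₗ (EuclideanSpace ℝ (Fin d))).flip
      = -innerₗ (EuclideanSpace ℝ (Fin d)) := by
    ext x y
    simp [real_inner_comm]
  rw [hflip] at h
  simpa using! h

lemma fourierInv_autoConv {f : EuclideanSpace ℝ (Fin d) → ℂ} (hf : Integrable f)
    (ξ : EuclideanSpace ℝ (Fin d)) :
    𝓕⁻ (autoConv f) ξ = ((‖𝓕⁻ f ξ‖ ^ 2 : ℝ) : ℂ) := by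
  have hneg : Integrable (fun x => conj (f (-x))) := by
    have h1 : Integrable (fun x => f (-x)) := hf.comp_neg
    exact (LinearIsometryEquiv.integrable_comp_iff (Complex.conjLIE)).mpr h1
  have h2 : autoConv f = MeasureTheory.convolution f (fun x => conj (f (-x)))
      (ContinuousLinearMap.mul ℂ ℂ) volume := by
    ext x
    rfl
  rw [Real.fourierInv_eq_fourier_neg, h2, Real.fourier_mul_convolution_eq hf hneg,
    ← Real.fourierInv_eq_fourier_neg, ← Real.fourierInv_eq_fourier_neg]
  have h3 : 𝓕⁻ (fun x => conj (f (-x))) ξ = conj (𝓕⁻ f ξ) := by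
    rw [Real.fourierInv_eq_fourier_comp_neg]
    simp only [neg_neg]
    rw [Real.fourier_eq', Real.fourierInv_eq', ← integral_conj]
    congr 1
    ext v
    simp only [smul_eq_mul, map_mul]
    congr 1
    rw [← Complex.exp_conj]
    congr 1
    simp only [map_mul, Complex.conj_ofReal, Complex.conj_I]
    push_cast
    ring
  rw [h3, Complex.mul_conj, Complex.normSq_eq_norm_sq]

/-- The complex Gaussian `ε · exp(-b ‖x‖²)`. -/
def gau (ε : ℝ) (b : ℂ) (x : EuclideanSpace ℝ (Fin d)) : ℂ := ε * Complex.exp (-b * ‖x‖ ^ 2)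

/-- Its Fourier transform. -/
def gauHat (ε : ℝ) (b : ℂ) (x : EuclideanSpace ℝ (Fin d)) : ℂ :=
  ε * ((Real.pi / b) ^ (d / 2 : ℂ) * Complex.exp (-Real.pi ^ 2 * ‖x‖ ^ 2 / b))

lemma gau_cont (ε : ℝ) (b : ℂ) : Continuous (gau (d := d) ε b) := by
  unfold gau; fun_prop

lemma gauHat_cont (ε : ℝ) (b : ℂ) : Continuous (gauHat (d := d) ε b) := by
  unfold gauHat; fun_prop

lemma gau_int (ε : ℝ) {b : ℂ} (hb : 0 < b.re) : Integrable (gau (d := d) ε b) := by
  unfold gau
  apply Integrable.const_mul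
  have := GaussianFourier.integrable_cexp_neg_mul_sq_norm_add (V := EuclideanSpace ℝ (Fin d))
    hb 0 0
  simpa using this

lemma gau_fourier (ε : ℝ) {b : ℂ} (hb : 0 < b.re) : 𝓕 (gau (d := d) ε b) = gauHat ε b := by
  ext w
  have h := fourier_gaussian_innerProductSpace (V := EuclideanSpace ℝ (Fin d)) hb w
  have h2 : 𝓕 (gau (d := d) ε b) w
      = ε * 𝓕 (fun v : EuclideanSpace ℝ (Fin d) => Complex.exp (-b * ‖v‖ ^ 2)) w := by
    rw [Real.fourier_eq', Real.fourier_eq', ← integral_const_mul]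
    congr 1
    ext v
    unfold gau
    simp only [smul_eq_mul]
    ring
  rw [h2, h]
  unfold gauHat
  simp

lemma re_inv_pos {b : ℂ} (hb : 0 < b.re) : 0 < (Real.pi ^ 2 / b : ℂ).re := by
  have hb0 : b ≠ 0 := by intro h; rw [h] at hb; simp at hb
  have : (Real.pi ^ 2 / b : ℂ).re = Real.pi ^ 2 * (b.re / Complex.normSq b) := by
    rw [div_eq_mul_inv, show ((Real.pi : ℂ) ^ 2) = ((Real.pi ^ 2 : ℝ) : ℂ) by push_cast; rfl,
      Complex.re_ofReal_mul, Complex.inv_re]
  rw [this]
  have := Complex.normSq_pos.mpr hb0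
  positivity

lemma gauHat_int (ε : ℝ) {b : ℂ} (hb : 0 < b.re) : Integrable (gauHat (d := d) ε b) := by
  unfold gauHat
  apply Integrable.const_mul
  apply Integrable.const_mul
  have := GaussianFourier.integrable_cexp_neg_mul_sq_norm_add (V := EuclideanSpace ℝ (Fin d))
    (re_inv_pos hb) 0 0
  convert this using 2 with x
  simp only [zero_mul, add_zero]
  congr 1
  ring

/-- The measure `ε exp(-b‖x‖²) dx`. -/
def mu (d : ℕ) (ε : ℝ) (b : ℂ) : CMeas (EuclideanSpace ℝ (Fin d)) where
  base := volume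
  locFin := inferInstance
  dens := gau ε b
  locInt := (gau_cont ε b).locallyIntegrable

/-- its Fourier transform. -/
def muHat (d : ℕ) (ε : ℝ) (b : ℂ) : CMeas (EuclideanSpace ℝ (Fin d)) where
  base := volume
  locFin := inferInstance
  dens := gauHat ε b
  locInt := (gauHat_cont ε b).locallyIntegrable

lemma norm_fourierInv_le {f : EuclideanSpace ℝ (Fin d) → ℂ} (ξ : EuclideanSpace ℝ (Fin d)) :
    ‖𝓕⁻ f ξ‖ ≤ ∫ x, ‖f x‖ := by
  rw [Real.fourierInv_eq_fourier_neg]
  exact VectorFourier.norm_fourierIntegral_le_integral_norm _ _ _ _ _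

lemma isFT (ε : ℝ) {b : ℂ} (hb : 0 < b.re) :
    IsFourierTransform (mu d ε b) (muHat d ε b) := by
  intro f hf
  have hfi : Integrable f := hf.1.integrable_of_hasCompactSupport hf.2
  have hcont : Continuous (𝓕⁻ f) := by
    have h1 : 𝓕⁻ f = fun ξ => 𝓕 f (-ξ) := by ext ξ; exact Real.fourierInv_eq_fourier_neg f ξ
    rw [h1]
    have h2 : Continuous (𝓕 f) :=
      VectorFourier.fourierIntegral_continuous Real.continuous_fourierChar
        (by
          have : Continuous fun p : EuclideanSpace ℝ (Fin d) × EuclideanSpace ℝ (Fin d) =>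
            ⟪p.1, p.2⟫ := by fun_prop
          simpa using this) hfi
    exact h2.comp continuous_neg
  refine ⟨?_, ?_⟩
  · rw [invFT_eq]
    have hfin : IsFiniteMeasure (muHat d ε b).variation := by
      unfold CMeas.variation
      exact isFiniteMeasure_withDensity (by
        have := (gauHat_int (d := d) ε hb).hasFiniteIntegral
        unfold HasFiniteIntegral at this
        exact this.ne)
    apply MemLp.of_bound (C := ∫ x, ‖f x‖)
    · exact hcont.aestronglyMeasurable
    · filter_upwards with ξ using norm_fourierInv_le ξ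
  · have hauto : Integrable (autoConv f) := by
      have hneg : Integrable (fun x => conj (f (-x))) := by
        have h1 : Integrable (fun x => f (-x)) := hfi.comp_neg
        exact (LinearIsometryEquiv.integrable_comp_iff (Complex.conjLIE)).mpr h1
      exact hfi.integrable_convolution (ContinuousLinearMap.mul ℂ ℂ) hneg
    unfold CMeas.eval
    show ∫ x, autoConv f x * gau ε b x = ∫ x, ((‖invFT f x‖ ^ 2 : ℝ) : ℂ) * gauHat ε b x
    rw [invFT_eq]
    have h1 : 𝓕⁻ (gauHat (d := d) ε b) = gau ε b := by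
      rw [← gau_fourier ε hb]
      apply (gau_cont ε b).fourierInv_fourier_eq (gau_int ε hb)
      rw [gau_fourier ε hb]
      exact gauHat_int ε hb
    rw [← h1, ← mul_formula hauto (gauHat_int ε hb)]
    congr 1
    ext ξ
    rw [fourierInv_autoConv hfi]

/-- the parameter `t n = 1/(n+1)`. -/
def tt (n : ℕ) : ℝ := 1 / ((n : ℝ) + 1)

lemma tt_pos (n : ℕ) : 0 < tt n := by unfold tt; positivity

lemma tt_le (n : ℕ) : tt n ≤ 1 := by
  unfold tt
  rw [div_le_one (by positivity)]
  have : (0 : ℝ) ≤ n := Nat.cast_nonneg n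
  linarith

/-- the complex parameter `b n = t² + i t`. -/
def bb (n : ℕ) : ℂ := ((tt n ^ 2 : ℝ) : ℂ) + (tt n : ℝ) * Complex.I

lemma bb_re (n : ℕ) : (bb n).re = tt n ^ 2 := by
  unfold bb
  rw [Complex.add_re, Complex.ofReal_re, Complex.re_ofReal_mul, Complex.I_re]
  simp

lemma bb_im (n : ℕ) : (bb n).im = tt n := by
  unfold bb
  rw [Complex.add_im, Complex.ofReal_im, Complex.im_ofReal_mul, Complex.I_im]
  simp

lemma bb_re_pos (n : ℕ) : 0 < (bb n).re := by
  rw [bb_re]; have := tt_pos n; positivity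

lemma bb_ne (n : ℕ) : bb n ≠ 0 := by
  intro h; have := bb_re_pos n; rw [h] at this; simp at this

lemma bb_normSq (n : ℕ) : Complex.normSq (bb n) = tt n ^ 4 + tt n ^ 2 := by
  rw [Complex.normSq_apply, bb_re, bb_im]; ring

lemma bb_norm_le (n : ℕ) : ‖bb n‖ ≤ 2 * tt n := by
  have h1 := tt_pos n
  have h2 := tt_le n
  have h3 : ‖bb n‖ ^ 2 ≤ (2 * tt n) ^ 2 := by
    rw [← Complex.normSq_eq_norm_sq, bb_normSq]
    have : tt n ^ 4 ≤ tt n ^ 2 := by
      apply pow_le_pow_of_le_one h1.le h2; norm_num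
    nlinarith
  exact (pow_le_pow_iff_left₀ (norm_nonneg _) (by positivity) (by norm_num)).mp h3

/-- the amplitude `ε n = t^{1/4}`. -/
def ee (n : ℕ) : ℝ := tt n ^ (1 / 4 : ℝ)

lemma ee_pos (n : ℕ) : 0 < ee n := Real.rpow_pos_of_pos (tt_pos n) _

lemma tt_tendsto : Tendsto tt atTop (𝓝 0) := tendsto_one_div_add_atTop_nhds_zero_nat

lemma ee_tendsto : Tendsto ee atTop (𝓝 0) := by
  have h := (Real.continuousAt_rpow_const 0 (1 / 4 : ℝ) (Or.inr (by norm_num))).tendsto.comp
    tt_tendsto
  have h0 : (0 : ℝ) ^ (1 / 4 : ℝ) = 0 := Real.zero_rpow (by norm_num)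
  rw [h0] at h
  exact h

lemma gauHat_lower (hd : 0 < d) (n : ℕ) (x : EuclideanSpace ℝ (Fin d)) :
    tt n ^ (-(1 / 4) : ℝ) * Real.exp (-(Real.pi ^ 2 * ‖x‖ ^ 2)) ≤ ‖gauHat (ee n) (bb n) x‖ := by
  have ht := tt_pos n
  have ht1 := tt_le n
  unfold gauHat
  rw [norm_mul, norm_mul, Complex.norm_real, Real.norm_of_nonneg (ee_pos n).le]
  have h1 : ‖((Real.pi / bb n : ℂ)) ^ (d / 2 : ℂ)‖ = (Real.pi / ‖bb n‖) ^ ((d : ℝ) / 2) := by
    rw [show (d / 2 : ℂ) = (((d : ℝ) / 2 : ℝ) : ℂ) by push_cast; rfl, Complex.norm_cpow_real,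
      norm_div, Complex.norm_real, Real.norm_of_nonneg Real.pi_pos.le]
  have hbpos : 0 < ‖bb n‖ := norm_pos_iff.mpr (bb_ne n)
  have h2 : tt n ^ (-(1 / 2) : ℝ) ≤ (Real.pi / ‖bb n‖) ^ ((d : ℝ) / 2) := by
    have h3 : 1 / tt n ≤ Real.pi / ‖bb n‖ := by
      rw [div_le_div_iff₀ ht hbpos]
      have := bb_norm_le n
      have hpi : 2 ≤ Real.pi := Real.two_le_pi
      nlinarith
    have h4 : 1 ≤ 1 / tt n := by rw [le_div_iff₀ ht]; linarith
    calc tt n ^ (-(1 / 2) : ℝ) = (1 / tt n) ^ (1 / 2 : ℝ) := by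
          rw [Real.rpow_neg ht.le, Real.div_rpow zero_le_one ht.le, Real.one_rpow, one_div (tt n ^ (1 / 2 : ℝ))]
      _ ≤ (1 / tt n) ^ ((d : ℝ) / 2) := by
          apply Real.rpow_le_rpow_of_exponent_le h4
          have : (1 : ℝ) ≤ d := by exact_mod_cast hd
          linarith
      _ ≤ (Real.pi / ‖bb n‖) ^ ((d : ℝ) / 2) :=
          Real.rpow_le_rpow (by positivity) h3 (by positivity)
  have h5 : Real.exp (-(Real.pi ^ 2 * ‖x‖ ^ 2))
      ≤ ‖Complex.exp (-Real.pi ^ 2 * ‖x‖ ^ 2 / bb n)‖ := by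
    rw [Complex.norm_exp]
    apply Real.exp_le_exp.mpr
    have h6 : (-Real.pi ^ 2 * ‖x‖ ^ 2 / bb n : ℂ).re
        = -(Real.pi ^ 2 * ‖x‖ ^ 2) * ((bb n).re / Complex.normSq (bb n)) := by
      rw [div_eq_mul_inv,
        show (-(Real.pi : ℂ) ^ 2 * (‖x‖ : ℂ) ^ 2) = ((-(Real.pi ^ 2 * ‖x‖ ^ 2) : ℝ) : ℂ) by
          push_cast; ring, Complex.re_ofReal_mul, Complex.inv_re]
    rw [h6, bb_re, bb_normSq]
    have h7 : tt n ^ 2 / (tt n ^ 4 + tt n ^ 2) ≤ 1 := by
      rw [div_le_one (by positivity)]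
      have : 0 ≤ tt n ^ 4 := by positivity
      linarith
    have h8 : 0 ≤ Real.pi ^ 2 * ‖x‖ ^ 2 := by positivity
    nlinarith
  rw [h1]
  calc tt n ^ (-(1 / 4) : ℝ) * Real.exp (-(Real.pi ^ 2 * ‖x‖ ^ 2))
      = ee n * (tt n ^ (-(1 / 2) : ℝ) * Real.exp (-(Real.pi ^ 2 * ‖x‖ ^ 2))) := by
        unfold ee
        rw [← mul_assoc, ← Real.rpow_add ht]
        norm_num
    _ ≤ _ := by
        apply mul_le_mul_of_nonneg_left _ (ee_pos n).le
        apply mul_le_mul h2 h5 (Real.exp_pos _).le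
        exact le_trans (Real.rpow_nonneg ht.le _) h2

lemma gau_norm_le {ε : ℝ} (hε : 0 ≤ ε) {b : ℂ} (hb : 0 < b.re) (x : EuclideanSpace ℝ (Fin d)) :
    ‖gau ε b x‖ ≤ ε := by
  unfold gau
  rw [norm_mul, Complex.norm_real, Real.norm_of_nonneg hε, Complex.norm_exp]
  have h1 : (-b * (‖x‖ : ℂ) ^ 2).re = -(b.re * ‖x‖ ^ 2) := by
    rw [show (-b * (‖x‖ : ℂ) ^ 2) = ((‖x‖ ^ 2 : ℝ) : ℂ) * (-b) by push_cast; ring,
      Complex.re_ofReal_mul, Complex.neg_re]
    ring
  rw [h1]
  have h2 : Real.exp (-(b.re * ‖x‖ ^ 2)) ≤ 1 := by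
    apply Real.exp_le_one_iff.mpr
    have : 0 ≤ b.re * ‖x‖ ^ 2 := by positivity
    linarith
  nlinarith

lemma normK_mu_le (K : Set (EuclideanSpace ℝ (Fin d))) (n : ℕ) :
    normK K (mu d (ee n) (bb n)) ≤ ENNReal.ofReal (ee n) * volume K := by
  unfold normK
  apply iSup_le
  intro x
  unfold CMeas.variation
  show (volume.withDensity fun y => ‖gau (ee n) (bb n) y‖ₑ) ((fun y => x + y) '' K) ≤ _
  calc (volume.withDensity fun y => ‖gau (ee n) (bb n) y‖ₑ) ((fun y => x + y) '' K)
      ≤ (volume.withDensity fun _ => ENNReal.ofReal (ee n)) ((fun y => x + y) '' K) := by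
        apply withDensity_mono
        filter_upwards with y
        rw [← ofReal_norm]
        exact ENNReal.ofReal_le_ofReal (gau_norm_le (ee_pos n).le (bb_re_pos n) y)
    _ = ENNReal.ofReal (ee n) * volume ((fun y => x + y) '' K) := by
        rw [withDensity_const, Measure.smul_apply, smul_eq_mul]
    _ = ENNReal.ofReal (ee n) * volume K := by
        rw [Set.image_add_left, measure_preimage_add]

/-- The unimodular factor `conj ĥ / |ĥ|` as a bounded continuous function. -/
def phase (ε : ℝ) (b : ℂ) (h0 : ∀ x : EuclideanSpace ℝ (Fin d), gauHat ε b x ≠ 0) :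
    BoundedContinuousFunction (EuclideanSpace ℝ (Fin d)) ℂ :=
  BoundedContinuousFunction.ofNormedAddCommGroup
    (fun x => conj (gauHat ε b x) / (‖gauHat ε b x‖ : ℂ))
    (by
      apply Continuous.div
      · exact Complex.continuous_conj.comp (gauHat_cont ε b)
      · exact Complex.continuous_ofReal.comp (gauHat_cont ε b).norm
      · intro x; simpa using h0 x) 1
    (by
      intro x
      rw [norm_div, RCLike.norm_conj, Complex.norm_real, norm_norm]
      exact div_self_le_one _)

/-- The functional `g ↦ ∫ g ψ ĥ`. -/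
def LL (ψ H : EuclideanSpace ℝ (Fin d) → ℂ) (hH : Integrable (fun x => ψ x * H x)) :
    BoundedContinuousFunction (EuclideanSpace ℝ (Fin d)) ℂ →L[ℂ] ℂ :=
  LinearMap.mkContinuous
    { toFun := fun g => ∫ x, g x * (ψ x * H x)
      map_add' := by
        intro g h
        rw [← integral_add]
        · congr 1; ext x; simp [add_mul]
        · exact hH.bdd_mul g.continuous.aestronglyMeasurable
            (by filter_upwards with x using g.norm_coe_le_norm x)
        · exact hH.bdd_mul h.continuous.aestronglyMeasurable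
            (by filter_upwards with x using h.norm_coe_le_norm x)
      map_smul' := by
        intro c g
        rw [RingHom.id_apply, smul_eq_mul, ← integral_const_mul]
        congr 1; ext x; simp [mul_assoc] }
    (∫ x, ‖ψ x * H x‖)
    (by
      intro g
      show ‖∫ x, g x * (ψ x * H x)‖ ≤ _
      rw [mul_comm, ← integral_const_mul]
      apply norm_integral_le_of_norm_le (hH.norm.const_mul _)
      filter_upwards with x
      rw [norm_mul]
      exact mul_le_mul_of_nonneg_right (g.norm_coe_le_norm x) (norm_nonneg _))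

lemma not_vague (hd : 0 < d) :
    ¬ VagueTendstoZero (fun n => muHat d (ee n) (bb n)) := by
  intro hv
  let φ : ContDiffBump (0 : EuclideanSpace ℝ (Fin d)) := ⟨1, 2, by norm_num, by norm_num⟩
  let ψ : EuclideanSpace ℝ (Fin d) → ℂ := fun x => (φ x : ℂ)
  have hψc : Continuous ψ := Complex.continuous_ofReal.comp φ.continuous
  have hψs : HasCompactSupport ψ := φ.hasCompactSupport.comp_left (g := fun t : ℝ => (t : ℂ))
    (by simp)
  have hint : ∀ n, Integrable (fun x => ψ x * gauHat (ee n) (bb n) x) := by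
    intro n
    exact (hψc.mul (gauHat_cont _ _)).integrable_of_hasCompactSupport (hψs.mul_right)
  let L : ℕ → (BoundedContinuousFunction (EuclideanSpace ℝ (Fin d)) ℂ →L[ℂ] ℂ) :=
    fun n => LL ψ (gauHat (ee n) (bb n)) (hint n)
  have hpt : ∀ g : BoundedContinuousFunction (EuclideanSpace ℝ (Fin d)) ℂ,
      ∃ C, ∀ n, ‖L n g‖ ≤ C := by
    intro g
    have h1 : IsCc (fun x => g x * ψ x) := ⟨g.continuous.mul hψc, hψs.mul_left⟩
    have h2 := hv _ h1
    have h3 : ∀ n, L n g = (muHat d (ee n) (bb n)).eval (fun x => g x * ψ x) := by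
      intro n
      show ∫ x, g x * (ψ x * gauHat (ee n) (bb n) x)
        = ∫ x, (g x * ψ x) * gauHat (ee n) (bb n) x
      congr 1; ext x; ring
    obtain ⟨C, hC⟩ := (Metric.isBounded_range_of_tendsto _ h2).exists_norm_le
    refine ⟨C, fun n => ?_⟩
    rw [h3]
    exact hC _ ⟨n, rfl⟩
  obtain ⟨C, hC⟩ := banach_steinhaus hpt
  -- lower bound
  have h0 : ∀ n (x : EuclideanSpace ℝ (Fin d)), gauHat (ee n) (bb n) x ≠ 0 := by
    intro n x h
    have h1 := gauHat_lower hd n x
    rw [h, norm_zero] at h1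
    have h2 : 0 < tt n ^ (-(1 / 4) : ℝ) * Real.exp (-(Real.pi ^ 2 * ‖x‖ ^ 2)) :=
      mul_pos (Real.rpow_pos_of_pos (tt_pos n) _) (Real.exp_pos _)
    linarith
  let c : ℝ := ∫ x : EuclideanSpace ℝ (Fin d), φ x * Real.exp (-(Real.pi ^ 2 * ‖x‖ ^ 2))
  have hcint : Integrable (fun x : EuclideanSpace ℝ (Fin d) =>
      φ x * Real.exp (-(Real.pi ^ 2 * ‖x‖ ^ 2))) := by
    apply Continuous.integrable_of_hasCompactSupport
    · exact φ.continuous.mul (by fun_prop)
    · exact φ.hasCompactSupport.mul_right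
  have hc : 0 < c := by
    apply Continuous.integral_pos_of_hasCompactSupport_nonneg_nonzero (x := 0)
    · exact φ.continuous.mul (by fun_prop)
    · exact φ.hasCompactSupport.mul_right
    · intro x
      exact mul_nonneg φ.nonneg (Real.exp_pos _).le
    · have : φ 0 = 1 := φ.one_of_mem_closedBall (by simp [φ.rIn_pos.le])
      simp [this]
  have hlow : ∀ n, tt n ^ (-(1 / 4) : ℝ) * c ≤ C := by
    intro n
    have h1 : L n (phase (ee n) (bb n) (h0 n))
        = ((∫ x, φ x * ‖gauHat (ee n) (bb n) x‖ : ℝ) : ℂ) := by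
      show ∫ x, (conj (gauHat (ee n) (bb n) x) / (‖gauHat (ee n) (bb n) x‖ : ℂ)) *
        (ψ x * gauHat (ee n) (bb n) x) = _
      rw [← integral_complex_ofReal]
      congr 1; ext x
      have hne : (‖gauHat (ee n) (bb n) x‖ : ℂ) ≠ 0 := by simpa using h0 n x
      show (conj (gauHat (ee n) (bb n) x) / (‖gauHat (ee n) (bb n) x‖ : ℂ)) *
        ((φ x : ℂ) * gauHat (ee n) (bb n) x) = _
      rw [div_mul_eq_mul_div, div_eq_iff hne]
      have h2 : conj (gauHat (ee n) (bb n) x) * gauHat (ee n) (bb n) x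
          = (‖gauHat (ee n) (bb n) x‖ : ℂ) ^ 2 := Complex.conj_mul' _
      calc conj (gauHat (ee n) (bb n) x) * ((φ x : ℂ) * gauHat (ee n) (bb n) x)
          = (φ x : ℂ) * (conj (gauHat (ee n) (bb n) x) * gauHat (ee n) (bb n) x) := by ring
        _ = _ := by rw [h2]; push_cast; ring
    have h2 : ‖L n (phase (ee n) (bb n) (h0 n))‖ ≤ C := by
      refine (L n).le_of_opNorm_le_of_le (hC n) ?_ |>.trans (mul_one C).le
      apply BoundedContinuousFunction.norm_ofNormedAddCommGroup_le
      norm_num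
    rw [h1, Complex.norm_real] at h2
    have h3 : tt n ^ (-(1 / 4) : ℝ) * c ≤ ∫ x, φ x * ‖gauHat (ee n) (bb n) x‖ := by
      show tt n ^ (-(1 / 4) : ℝ) *
        (∫ x : EuclideanSpace ℝ (Fin d), φ x * Real.exp (-(Real.pi ^ 2 * ‖x‖ ^ 2))) ≤ _
      rw [← integral_const_mul]
      apply integral_mono (hcint.const_mul _)
      · apply Continuous.integrable_of_hasCompactSupport
        · exact φ.continuous.mul (gauHat_cont _ _).norm
        · exact φ.hasCompactSupport.mul_right
      · intro x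
        have := mul_le_mul_of_nonneg_left (gauHat_lower hd n x) (φ.nonneg (x := x))
        simp only
        linarith
    calc tt n ^ (-(1 / 4) : ℝ) * c ≤ ∫ x, φ x * ‖gauHat (ee n) (bb n) x‖ := h3
      _ ≤ |∫ x, φ x * ‖gauHat (ee n) (bb n) x‖| := le_abs_self _
      _ ≤ C := h2
  -- contradiction
  have hlim : Tendsto (fun n => ee n * C) atTop (𝓝 0) := by
    simpa using ee_tendsto.mul_const C
  have hge : ∀ n, c ≤ ee n * C := by
    intro n
    have h1 := mul_le_mul_of_nonneg_left (hlow n) (ee_pos n).le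
    have h2 : ee n * (tt n ^ (-(1 / 4) : ℝ) * c) = c := by
      unfold ee
      rw [← mul_assoc, ← Real.rpow_add (tt_pos n)]
      norm_num
    linarith
  have := ge_of_tendsto' hlim hge
  linarith

end Proof

/-- **Negative answer to MP_148afe_an, Q1, for every `d ≥ 1` and every compact `K`.** There are
Fourier transformable measures `μ n` on `ℝ^d` with Fourier transforms `μ' n` such that
`‖μ n‖_K < ∞`, `‖μ n‖_K → 0`, but `μ' n` does not converge vaguely to `0`. -/
theorem result (d : ℕ) (hd : 0 < d) (K : Set (EuclideanSpace ℝ (Fin d))) (hK : IsCompact K) :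
    ∃ μ μ' : ℕ → CMeas (EuclideanSpace ℝ (Fin d)),
      (∀ n, IsFourierTransform (μ n) (μ' n)) ∧ (∀ n, normK K (μ n) < ∞) ∧
      Tendsto (fun n => normK K (μ n)) atTop (𝓝 0) ∧ ¬ VagueTendstoZero μ' := by
  have hKf : volume K < ∞ := hK.measure_lt_top
  refine ⟨fun n => mu d (ee n) (bb n), fun n => muHat d (ee n) (bb n),
    fun n => isFT (ee n) (bb_re_pos n), ?_, ?_, not_vague hd⟩
  · intro n
    exact (normK_mu_le K n).trans_lt (ENNReal.mul_lt_top ENNReal.ofReal_lt_top hKf)
  · apply tendsto_of_tendsto_of_tendsto_of_le_of_le tendsto_const_nhds _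
      (fun n => bot_le) (fun n => normK_mu_le K n)
    have h1 : Tendsto (fun n => ENNReal.ofReal (ee n)) atTop (𝓝 0) := by
      have := ENNReal.tendsto_ofReal ee_tendsto
      simpa using this
    have h2 := ENNReal.Tendsto.mul_const h1 (Or.inr hKf.ne)
    simpa using h2

end Pool.Agent.Results.MP_148afe_an.ChirpDiscontinuity
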